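import Pool.Agent.Lib.MP_3581cd_co.Final

/-!
# Disjoint edge pairs with a common union in hypergraphs

For every `r` and every real `g > 1`, if `k` is large and `n` is large in terms of `k`, every
`k`-uniform hypergraph `H` on `n` vertices with more than `g * ((n - 1).choose (k - 1))` edges
contains `2 r` pairwise distinct edges `A i`, `B i` with `A i` and `B i` disjoint and all unions
`A i ∪ B i` equal.
-/

namespace Pool.Agent.Results.MP_3581cd_co.AllSplits

theorem result : ∀ r : ℕ, 1 ≤ r → ∀ g : ℝ, 1 < g → ∃ k₀ : ℕ, ∀ k : ℕ, k₀ ≤ k →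
    ∃ n₀ : ℕ, ∀ n : ℕ, n₀ ≤ n → ∀ H : Finset (Finset (Fin n)), (∀ e ∈ H, e.card = k) →
      g * ((n - 1).choose (k - 1) : ℝ) < (H.card : ℝ) →
        ∃ A B : Fin r → Finset (Fin n), (∀ i, A i ∈ H ∧ B i ∈ H ∧ Disjoint (A i) (B i)) ∧
          (∀ i j, A i ∪ B i = A j ∪ B j) ∧ Function.Injective (Sum.elim A B) :=
  RFold.main

end Pool.Agent.Results.MP_3581cd_co.AllSplits
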